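import Pool.Agent.X238.Srt.Main

/-!
# MP_081fbf_lc: `SN(R/S)` holds

`R = {ad → db, a → bbb, d → ε, a → ε, bc → cdd, ac → bbcd}`, `S = {bdb → ad, ad → bdb}`.
Every infinite `R ∪ S` rewrite sequence has only finitely many steps that are `R`-steps.
-/

namespace Pool.Agent.Results.MP_081fbf_lc.RelTerm

open Pool.Agent.X238.Srt

theorem result : SNrel R S := snrel

end Pool.Agent.Results.MP_081fbf_lc.RelTerm
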